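import Pool.Agent.P8H70.TU.Stm

set_option autoImplicit false

/-!
# Project TU (helper70), package ALG
-/

open Complex MeasureTheory Finset

namespace Pool.Agent.P8H78.TU

open Pool.Agent.P8H70.TR (tp)
open Pool.Agent.P8H70.TU

theorem tp_per (n : ℕ) (a : ℕ → ℂ) : Function.Periodic (tp n a) (2 * Real.pi) := by
  intro t
  unfold tp
  refine Finset.sum_congr rfl fun j _ => ?_
  congr 1
  have h : (((j * (t + 2 * Real.pi) : ℝ) : ℂ) * I) =
      ((j * t : ℝ) : ℂ) * I + ((j : ℤ) : ℂ) * (2 * Real.pi * I) := by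
    push_cast
    ring
  rw [h, Complex.exp_add, Complex.exp_int_mul_two_pi_mul_I, mul_one]

theorem conv (n : ℕ) (b c : ℕ → ℂ) (t : ℝ) :
    ∫ s in (0 : ℝ)..(2 * Real.pi), tp n b s * tp n c (t - s) =
      ((2 * Real.pi : ℝ) : ℂ) * tp n (fun j => b j * c j) t := by
  have e : ∀ s : ℝ, tp n b s * tp n c (t - s) = ∑ j ∈ range (n + 1), ∑ l ∈ range (n + 1),
      (b j * c l * cexp (((l * t : ℝ) : ℂ) * I)) * cexp ((((j - l : ℤ) * s : ℝ) : ℂ) * I) := by
    intro s
    unfold tp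
    rw [Finset.sum_mul_sum]
    refine Finset.sum_congr rfl fun j _ => Finset.sum_congr rfl fun l _ => ?_
    rw [mul_mul_mul_comm, mul_assoc (b j * c l), ← Complex.exp_add, ← Complex.exp_add]
    congr 2
    push_cast
    ring
  rw [intervalIntegral.integral_congr fun s _ => e s]
  rw [intervalIntegral.integral_finsetSum fun j _ => by
    apply Continuous.intervalIntegrable; fun_prop]
  have e2 : ∀ j ∈ range (n + 1), ∫ s in (0 : ℝ)..(2 * Real.pi), ∑ l ∈ range (n + 1),
      (b j * c l * cexp (((l * t : ℝ) : ℂ) * I)) * cexp ((((j - l : ℤ) * s : ℝ) : ℂ) * I) =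
      ((2 * Real.pi : ℝ) : ℂ) * (b j * c j * cexp (((j * t : ℝ) : ℂ) * I)) := by
    intro j hj
    rw [intervalIntegral.integral_finsetSum fun l _ => by
      apply Continuous.intervalIntegrable; fun_prop]
    have e3 : ∀ l ∈ range (n + 1), ∫ s in (0 : ℝ)..(2 * Real.pi),
        (b j * c l * cexp (((l * t : ℝ) : ℂ) * I)) * cexp ((((j - l : ℤ) * s : ℝ) : ℂ) * I) =
        if j = l then (b j * c l * cexp (((l * t : ℝ) : ℂ) * I)) * ((2 * Real.pi : ℝ) : ℂ) else 0 := by
      intro l _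
      rw [intervalIntegral.integral_const_mul, Pool.Agent.P8H70.TR.int_exp]
      by_cases h : j = l
      · subst h; simp
      · rw [if_neg h, if_neg (by omega), mul_zero]
    rw [Finset.sum_congr rfl e3, Finset.sum_ite_eq (range (n + 1)) j, if_pos hj]
    ring
  rw [Finset.sum_congr rfl e2, ← Finset.mul_sum]
  rfl

theorem swap (f : ℝ → ℝ → ℝ) (hf : Continuous (Function.uncurry f)) (a b : ℝ) (hab : a ≤ b) :
    ∫ x in a..b, ∫ y in a..b, f x y = ∫ y in a..b, ∫ x in a..b, f x y := by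
  simp only [intervalIntegral.integral_of_le hab]
  apply integral_integral_swap
  rw [Measure.prod_restrict]
  refine (hf.continuousOn.integrableOn_compact
    ((isCompact_Icc (a := a) (b := b)).prod (isCompact_Icc (a := a) (b := b)))).mono_set ?_
  exact Set.prod_mono Set.Ioc_subset_Icc_self Set.Ioc_subset_Icc_self

theorem alg : S_ALG := by
  intro n b c
  have hpi : 0 < 2 * Real.pi := by positivity
  have hB := Pool.Agent.P8H70.TR.continuous_tp n b
  have hC := Pool.Agent.P8H70.TR.continuous_tp n c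
  have hBC := Pool.Agent.P8H70.TR.continuous_tp n (fun j => b j * c j)
  have h1 : ∀ t, ‖tp n (fun j => b j * c j) t‖ ≤
      (2 * Real.pi)⁻¹ * ∫ s in (0 : ℝ)..(2 * Real.pi), ‖tp n b s‖ * ‖tp n c (t - s)‖ := by
    intro t
    have h2 := conv n b c t
    have h3 : ‖∫ s in (0 : ℝ)..(2 * Real.pi), tp n b s * tp n c (t - s)‖ ≤
        ∫ s in (0 : ℝ)..(2 * Real.pi), ‖tp n b s * tp n c (t - s)‖ :=
      intervalIntegral.norm_integral_le_integral_norm hpi.le
    rw [h2, norm_mul, Complex.norm_real, Real.norm_eq_abs, abs_of_pos hpi] at h3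
    simp only [norm_mul] at h3
    rw [inv_mul_eq_div, le_div_iff₀ hpi]
    linarith
  have hcont2 : Continuous (Function.uncurry fun t s : ℝ => ‖tp n b s‖ * ‖tp n c (t - s)‖) := by
    have e1 : Continuous fun q : ℝ × ℝ => ‖tp n b q.2‖ := (hB.comp continuous_snd).norm
    have e2 : Continuous fun q : ℝ × ℝ => ‖tp n c (q.1 - q.2)‖ :=
      (hC.comp (continuous_fst.sub continuous_snd)).norm
    exact e1.mul e2
  have hper : Function.Periodic (fun t => ‖tp n c t‖) (2 * Real.pi) := fun t => by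
    show ‖tp n c (t + 2 * Real.pi)‖ = _
    rw [tp_per]
  have h4 : ∀ s, ∫ t in (0 : ℝ)..(2 * Real.pi), ‖tp n c (t - s)‖ =
      ∫ t in (0 : ℝ)..(2 * Real.pi), ‖tp n c t‖ := by
    intro s
    rw [intervalIntegral.integral_comp_sub_right (fun t => ‖tp n c t‖) s]
    have := hper.intervalIntegral_add_eq (0 - s) 0
    rw [zero_add] at this
    rw [← this]
    congr 1
    ring
  have hcl : Continuous fun t => (2 * Real.pi)⁻¹ *
      ∫ s in (0 : ℝ)..(2 * Real.pi), ‖tp n b s‖ * ‖tp n c (t - s)‖ := by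
    refine continuous_const.mul ?_
    exact intervalIntegral.continuous_parametric_intervalIntegral_of_continuous' hcont2 _ _
  have h5 : ∫ t in (0 : ℝ)..(2 * Real.pi), ‖tp n (fun j => b j * c j) t‖ ≤
      ∫ t in (0 : ℝ)..(2 * Real.pi), (2 * Real.pi)⁻¹ *
        ∫ s in (0 : ℝ)..(2 * Real.pi), ‖tp n b s‖ * ‖tp n c (t - s)‖ :=
    intervalIntegral.integral_mono_on hpi.le (hBC.norm.intervalIntegrable _ _)
      (hcl.intervalIntegrable _ _) (fun t _ => h1 t)
  rw [intervalIntegral.integral_const_mul, swap _ hcont2 0 (2 * Real.pi) hpi.le] at h5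
  have h6 : ∫ s in (0 : ℝ)..(2 * Real.pi), ∫ t in (0 : ℝ)..(2 * Real.pi),
      ‖tp n b s‖ * ‖tp n c (t - s)‖ =
      (∫ s in (0 : ℝ)..(2 * Real.pi), ‖tp n b s‖) * ∫ t in (0 : ℝ)..(2 * Real.pi), ‖tp n c t‖ := by
    rw [← intervalIntegral.integral_mul_const]
    refine intervalIntegral.integral_congr fun s _ => ?_
    show ∫ t in (0 : ℝ)..(2 * Real.pi), ‖tp n b s‖ * ‖tp n c (t - s)‖ = _
    rw [intervalIntegral.integral_const_mul, h4]
  rw [h6] at h5
  unfold N1
  calc (2 * Real.pi)⁻¹ * ∫ t in (0 : ℝ)..(2 * Real.pi), ‖tp n (fun j => b j * c j) t‖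
      ≤ (2 * Real.pi)⁻¹ * ((2 * Real.pi)⁻¹ * ((∫ s in (0 : ℝ)..(2 * Real.pi), ‖tp n b s‖) *
        ∫ t in (0 : ℝ)..(2 * Real.pi), ‖tp n c t‖)) :=
        mul_le_mul_of_nonneg_left h5 (by positivity)
    _ = _ := by ring

end Pool.Agent.P8H78.TU
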